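import Pool.Agent.Helper70.Isg.Goals2

/-!
MP_600500_pr, packet MEAS: equivariance and measurability of the infinite volume map.
-/

set_option autoImplicit false

open MeasureTheory Finset

noncomputable section

namespace Pool.Agent.Helper88.Isg

open Pool.Agent.Helper70.Isg

variable {d : ℕ}

/-! ### locality of the rule -/

theorem gsum_congr {L L' : ℕ → ℝ} (k : ℕ) (h : ∀ i < k, L i = L' i) : gsum L k = gsum L' k := by
  induction k with
  | zero => rfl
  | succ k ih =>
    have h1 := ih fun i hi => h i (by omega)
    have h2 := h k (by omega)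
    simp only [gsum, h1, h2]

theorem gbit_congr {L L' : ℕ → ℝ} (k : ℕ) (h : ∀ i ≤ k, L i = L' i) : gbit L k = gbit L' k := by
  unfold gbit
  rw [gsum_congr k fun i hi => h i hi.le, h k le_rfl]

theorem low_congr (β : ℝ) (v : Site d) (r : ℕ) (P P' : Site d → Bool) (s : Bool) (a a' : Cfg d)
    (hP : ∀ u ∈ ball v r, P u = P' u) (ha : ∀ u ∈ ball v r, a u = a' u) :
    low β v r P s a = low β v r P' s a' := by
  unfold low
  have h1 : (ball v r).filter (fun u => P u = false) = (ball v r).filter (fun u => P' u = false) :=
    Finset.filter_congr fun u hu => by rw [hP u hu]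
  have h2 : (fun u => if u ∈ ball v r then a u else s) =
      fun u => if u ∈ ball v r then a' u else s := by
    funext u
    split_ifs with h
    · exact ha u h
    · rfl
  rw [h1, h2]

theorem ball_mono (hB : S_BASIC) (v : Site d) {m n : ℕ} (h : m ≤ n) : ball v m ⊆ ball v n := by
  obtain ⟨_, _, _, hball, _⟩ := hB d
  intro u hu
  rw [hball] at hu ⊢
  omega

theorem prb_congr {l l' : Site d → ℕ} {w v : Site d} (hw : l w = l' w) (hv : l v = l' v) :
    prb l w v = prb l' w v := by
  unfold prb
  rw [hw, hv]

theorem kbit_congr (hB : S_BASIC) (β : ℝ) (K : ℕ) (l l' : Site d → ℕ) (v : Site d) (k : ℕ)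
    (a a' : Cfg d) (hv : l v = l' v) (hl : ∀ u ∈ ball v (K * (k + 1)), l u = l' u)
    (ha : ∀ u ∈ ball v (K * (k + 1)), a u = a' u) : kbit β K l v k a = kbit β K l' v k a' := by
  unfold kbit
  refine gbit_congr k fun i hi => ?_
  have hsub : ball v (K * (i + 1)) ⊆ ball v (K * (k + 1)) :=
    ball_mono hB v (Nat.mul_le_mul_left K (by omega))
  exact low_congr β v _ _ _ false a a' (fun u hu => prb_congr (hl u (hsub hu)) hv)
    fun u hu => ha u (hsub hu)

/-! ### equivariance -/

theorem prb_shift (l : Site d → ℕ) (u w v : Site d) :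
    prb (fun x => l (x + u)) w v = prb l (w + u) (v + u) := by
  unfold prb
  have h : toLex (w + u) < toLex (v + u) ↔ toLex w < toLex v := by
    rw [toLex_add, toLex_add]
    exact add_lt_add_iff_right (toLex u)
  rw [decide_eq_decide]
  exact or_congr Iff.rfl (and_congr Iff.rfl h.symm)

theorem mem_ball_shift (hB : S_BASIC) (v u x : Site d) (r : ℕ) :
    x + u ∈ ball (v + u) r ↔ x ∈ ball v r := by
  obtain ⟨_, _, _, hball, _⟩ := hB d
  rw [hball, hball, add_sub_add_right_eq_sub]

theorem low_shift (hB : S_BASIC) (hT : S_TRAN) (β : ℝ) (v u : Site d) (r : ℕ)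
    (P P' : Site d → Bool) (s : Bool) (a : Cfg d) (hP : ∀ x, P x = P' (x + u)) :
    low β v r P s (shift u a) = low β (v + u) r P' s a := by
  unfold low
  have h1 : (ball (v + u) r).filter (fun x => P' x = false) =
      ((ball v r).filter (fun x => P x = false)).image (· + u) := by
    ext x
    rw [Finset.mem_filter, Finset.mem_image]
    constructor
    · rintro ⟨h1, h2⟩
      refine ⟨x - u, ?_, by simp⟩
      rw [Finset.mem_filter, hP, sub_add_cancel]
      refine ⟨?_, h2⟩
      rw [← mem_ball_shift hB v u, sub_add_cancel]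
      exact h1
    · rintro ⟨w, hw, rfl⟩
      rw [Finset.mem_filter, hP] at hw
      exact ⟨(mem_ball_shift hB v u w r).2 hw.1, hw.2⟩
  rw [h1, hT]
  have h2 : shift u (fun x => if x ∈ ball (v + u) r then a x else s) =
      fun x => if x ∈ ball v r then shift u a x else s := by
    funext x
    simp only [shift, mem_ball_shift hB]
  have h3 : (fun σ : Cfg d => ind (v + u) (shift (-u) σ)) = ind v := by
    funext σ
    simp only [ind, shift, add_neg_cancel_right]
  rw [h2, h3]

theorem kbit_shift (hB : S_BASIC) (hT : S_TRAN) (β : ℝ) (K : ℕ) (l : Site d → ℕ) (v u : Site d)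
    (k : ℕ) (a : Cfg d) :
    kbit β K (fun x => l (x + u)) v k (shift u a) = kbit β K l (v + u) k a := by
  unfold kbit
  refine gbit_congr k fun i _ => ?_
  exact low_shift hB hT β v u _ _ _ false a fun x => prb_shift l u x v

theorem itr_shift (hB : S_BASIC) (hT : S_TRAN) (β : ℝ) (K : ℕ) {L : ℕ} (u : Site d)
    (y : Inp d L) (n : ℕ) : itr β K (shift u y) n = shift u (itr β K y n) := by
  induction n with
  | zero => rfl
  | succ n ih =>
    funext v
    show kbit β K (lab (shift u y)) v (shift u y v).2 (itr β K (shift u y) n) =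
      kbit β K (lab y) (v + u) (y (v + u)).2 (itr β K y n)
    rw [ih]
    exact kbit_shift hB hT β K (lab y) v u (y (v + u)).2 (itr β K y n)

/-! ### measurability -/

theorem kbit_measurable (hB : S_BASIC) (β : ℝ) (K : ℕ) {L : ℕ} (v : Site d) (k : ℕ)
    (F : Inp d L → Cfg d) (hF : Measurable F) :
    Measurable (fun y : Inp d L => kbit β K (lab y) v k (F y)) := by
  classical
  set B : Finset (Site d) := insert v (ball v (K * (k + 1))) with hBd
  -- the finite data
  let pr : Inp d L → (B → Fin L) × (B → Bool) := fun y => (fun u => (y u).1, fun u => F y u)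
  have hpr : Measurable pr := by
    refine Measurable.prodMk ?_ ?_
    · refine measurable_pi_iff.2 fun u => ?_
      exact measurable_fst.comp (measurable_pi_apply (u : Site d))
    · refine measurable_pi_iff.2 fun u => ?_
      exact (measurable_pi_apply (u : Site d)).comp hF
  let Φ : (B → Fin L) × (B → Bool) → Bool := fun t =>
    kbit β K (fun u => if h : u ∈ B then ((t.1 ⟨u, h⟩ : Fin L) : ℕ) else 0) v k
      (fun u => if h : u ∈ B then t.2 ⟨u, h⟩ else false)
  have hΦ : Measurable Φ := measurable_of_countable Φ
  have heq : (fun y : Inp d L => kbit β K (lab y) v k (F y)) = Φ ∘ pr := by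
    funext y
    refine kbit_congr hB β K _ _ v k _ _ ?_ ?_ ?_
    · have hv : v ∈ B := Finset.mem_insert_self _ _
      rw [dif_pos hv]
      rfl
    · intro u hu
      have hu' : u ∈ B := Finset.mem_insert_of_mem hu
      rw [dif_pos hu']
      rfl
    · intro u hu
      have hu' : u ∈ B := Finset.mem_insert_of_mem hu
      rw [dif_pos hu']
  rw [heq]
  exact hΦ.comp hpr

theorem itr_measurable (hB : S_BASIC) (β : ℝ) (K : ℕ) {L : ℕ} (n : ℕ) :
    Measurable (fun y : Inp d L => itr β K y n) := by
  induction n with
  | zero => exact measurable_const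
  | succ n ih =>
    refine measurable_pi_iff.2 fun v => ?_
    have h1 : Measurable (fun p : Inp d L × ℕ => kbit β K (lab p.1) v p.2 (itr β K p.1 n)) :=
      measurable_from_prod_countable_left fun k => kbit_measurable hB β K v k _ ih
    have h2 : Measurable (fun y : Inp d L => (y, (y v).2)) :=
      measurable_id.prodMk (measurable_snd.comp (measurable_pi_apply v))
    have h3 := h1.comp h2
    simp only [Function.comp_def] at h3
    exact h3

theorem phi2_measurable (hB : S_BASIC) (β : ℝ) (K L : ℕ) :
    Measurable (phi2 β K : Inp d L → Cfg d) := by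
  refine measurable_pi_iff.2 fun v => ?_
  refine measurable_to_bool ?_
  have h1 : (fun y : Inp d L => phi2 β K y v) ⁻¹' {true} =
      ⋃ N : ℕ, ⋂ n : ℕ, ⋂ _ : n ≥ N, {y : Inp d L | itr β K y n v = true} := by
    ext y
    simp only [Set.mem_preimage, Set.mem_singleton_iff, phi2, decide_eq_true_eq, Set.mem_iUnion,
      Set.mem_iInter, Set.mem_setOf_eq]
  rw [h1]
  refine MeasurableSet.iUnion fun N => MeasurableSet.iInter fun n => MeasurableSet.iInter fun _ => ?_
  have h2 : Measurable (fun y : Inp d L => itr β K y n v) :=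
    (measurable_pi_apply v).comp (itr_measurable hB β K n)
  exact h2 (measurableSet_singleton true)

theorem pf_MEAS (hB : S_BASIC) (hT : S_TRAN) : S_MEAS := by
  intro d β K L
  refine ⟨phi2_measurable hB β K L, fun u y => ?_⟩
  funext v
  have h1 : phi2 β K (shift u y) v = phi2 β K y (v + u) := by
    unfold phi2
    rw [decide_eq_decide]
    have h2 : ∀ n, itr β K (shift u y) n v = itr β K y n (v + u) := fun n => by
      rw [itr_shift hB hT]
      rfl
    exact exists_congr fun N => forall_congr' fun n => forall_congr' fun _ => by rw [h2]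
  exact h1

end Pool.Agent.Helper88.Isg
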