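import Pool.Agent.Helper70.Isg.Goals2

/-!
MP_600500_pr, packet MONJ: Griffiths monotonicity in the couplings.
-/

set_option autoImplicit false

open Finset

noncomputable section

namespace Pool.Agent.Helper88.Isg

open Pool.Agent.Helper70.Isg

set_option linter.unusedSectionVars false

variable {V : Type} [Fintype V] [DecidableEq V]

theorem sg_sq (b : Bool) : sg b * sg b = 1 := by
  cases b <;> simp [sg]

theorem sg_abs (b : Bool) : |sg b| = 1 := by
  cases b <;> simp [sg]

theorem sg_xnor (a b : Bool) : sg (!(xor a b)) = sg a * sg b := by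
  cases a <;> cases b <;> simp [sg]

/-- nonnegative combinations of products of spins -/
inductive Good : ((V → Bool) → ℝ) → Prop
  | mon (c : ℝ) (hc : 0 ≤ c) (n : V → ℕ) : Good (fun σ => c * ∏ v, sg (σ v) ^ n v)
  | add {f g : (V → Bool) → ℝ} : Good f → Good g → Good (fun σ => f σ + g σ)

theorem Good.mul {f g : (V → Bool) → ℝ} (hf : Good f) (hg : Good g) :
    Good (fun σ => f σ * g σ) := by
  induction hf with
  | mon c hc n =>
    induction hg with
    | mon c' hc' n' =>
      have := Good.mon (V := V) (c * c') (mul_nonneg hc hc') (n + n')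
      refine cast (congrArg Good ?_) this
      funext σ
      have : ∏ v, sg (σ v) ^ ((n + n') v) = (∏ v, sg (σ v) ^ n v) * ∏ v, sg (σ v) ^ n' v := by
        rw [← Finset.prod_mul_distrib]
        refine Finset.prod_congr rfl fun v _ => ?_
        rw [Pi.add_apply, pow_add]
      rw [this]
      ring
    | add _ _ h1 h2 =>
      refine cast (congrArg Good ?_) (Good.add h1 h2)
      funext σ
      ring
  | add _ _ h1 h2 =>
    refine cast (congrArg Good ?_) (Good.add h1 h2)
    funext σ
    ring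

theorem Good.const (c : ℝ) (hc : 0 ≤ c) : Good (fun _ : V → Bool => c) := by
  have := Good.mon (V := V) c hc 0
  refine cast (congrArg Good ?_) this
  funext σ
  simp

theorem Good.spin (u : V) : Good (fun σ : V → Bool => sg (σ u)) := by
  have := Good.mon (V := V) 1 zero_le_one (Pi.single u 1)
  refine cast (congrArg Good ?_) this
  funext σ
  rw [Finset.prod_eq_single u]
  · simp
  · intro v _ hv
    simp [Pi.single_eq_of_ne hv]
  · intro h
    exact absurd (Finset.mem_univ u) h

theorem Good.prod {ι : Type} (s : Finset ι) (f : ι → (V → Bool) → ℝ) (h : ∀ i ∈ s, Good (f i)) :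
    Good (fun σ => ∏ i ∈ s, f i σ) := by
  classical
  induction s using Finset.induction_on with
  | empty =>
    refine cast (congrArg Good ?_) (Good.const (V := V) 1 zero_le_one)
    funext σ
    simp
  | insert i s hi ih =>
    have h1 := ih fun j hj => h j (Finset.mem_insert_of_mem hj)
    have h2 := h i (Finset.mem_insert_self i s)
    refine cast (congrArg Good ?_) (h2.mul h1)
    funext σ
    rw [Finset.prod_insert hi]

theorem Good.sum_nonneg {f : (V → Bool) → ℝ} (hf : Good f) : 0 ≤ ∑ σ, f σ := by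
  induction hf with
  | mon c hc n =>
    rw [← Finset.mul_sum]
    refine mul_nonneg hc ?_
    have h := Finset.prod_univ_sum (R := ℝ) (fun _ : V => (Finset.univ : Finset Bool))
      (fun v b => sg b ^ n v)
    rw [Fintype.piFinset_univ] at h
    rw [← h]
    refine Finset.prod_nonneg fun v _ => ?_
    rw [Fintype.sum_bool]
    simp only [sg, if_true, one_pow, Bool.false_eq_true, if_false]
    rcases neg_one_pow_eq_or ℝ (n v) with h | h <;> rw [h] <;> norm_num
  | add _ _ h1 h2 =>
    rw [Finset.sum_add_distrib]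
    exact add_nonneg h1 h2

theorem exp_mul_sign (c s : ℝ) (hs : s = 1 ∨ s = -1) :
    Real.exp (c * s) = Real.cosh c + Real.sinh c * s := by
  rcases hs with h | h <;> subst h
  · rw [mul_one, mul_one, Real.cosh_add_sinh]
  · rw [mul_neg_one, mul_neg_one, ← sub_eq_add_neg, Real.cosh_sub_sinh]

theorem pair_sign (a b : Bool) : sg a * sg b = 1 ∨ sg a * sg b = -1 := by
  cases a <;> cases b <;> simp [sg]

theorem Good.exp_pair (c : ℝ) (hc : 0 ≤ c) (u v : V) :
    Good (fun σ : V → Bool => Real.exp (c * (sg (σ u) * sg (σ v)))) := by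
  have h1 : Good (fun σ : V → Bool => Real.cosh c + Real.sinh c * (sg (σ u) * sg (σ v))) :=
    (Good.const _ (Real.cosh_pos c).le).add
      ((Good.const _ (Real.sinh_nonneg_iff.2 hc)).mul ((Good.spin u).mul (Good.spin v)))
  refine cast (congrArg Good ?_) h1
  funext σ
  rw [exp_mul_sign c _ (pair_sign _ _)]

theorem gE_zero (J : V → V → ℝ) (σ : V → Bool) :
    gE J 0 σ = ∑ p : V × V, J p.1 p.2 * (sg (σ p.1) * sg (σ p.2)) := by
  unfold gE
  rw [Fintype.sum_prod_type]
  simp

theorem Good.exp_gE (J : V → V → ℝ) (hJ : ∀ a b, 0 ≤ J a b) :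
    Good (fun σ : V → Bool => Real.exp (gE J 0 σ)) := by
  have h := Good.prod (Finset.univ : Finset (V × V))
    (fun p (σ : V → Bool) => Real.exp (J p.1 p.2 * (sg (σ p.1) * sg (σ p.2))))
    (fun p _ => Good.exp_pair _ (hJ _ _) _ _)
  refine cast (congrArg Good ?_) h
  funext σ
  rw [gE_zero, Real.exp_sum]

/-- the pointwise product of two configurations -/
def xn (σ τ : V → Bool) : V → Bool := fun v => !(xor (σ v) (τ v))

theorem xn_invol (σ τ : V → Bool) : xn σ (xn σ τ) = τ := by
  funext v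
  unfold xn
  cases σ v <;> cases τ v <;> rfl

theorem sum_xn (σ : V → Bool) (F : (V → Bool) → ℝ) : ∑ τ, F (xn σ τ) = ∑ τ, F τ := by
  have hinv : Function.Involutive (xn σ) := xn_invol σ
  exact Equiv.sum_comp hinv.toPerm F

/-- second Griffiths inequality for pairs -/
theorem gks2 (J : V → V → ℝ) (hJ : ∀ a b, 0 ≤ J a b) (u v a b : V) :
    (∑ σ : V → Bool, sg (σ u) * sg (σ v) * Real.exp (gE J 0 σ)) *
        (∑ σ : V → Bool, sg (σ a) * sg (σ b) * Real.exp (gE J 0 σ)) ≤
      (∑ σ : V → Bool, (sg (σ u) * sg (σ v)) * (sg (σ a) * sg (σ b)) * Real.exp (gE J 0 σ)) *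
        ∑ σ : V → Bool, Real.exp (gE J 0 σ) := by
  set F : (V → Bool) → ℝ := fun σ => sg (σ u) * sg (σ v) with hF
  set G : (V → Bool) → ℝ := fun σ => sg (σ a) * sg (σ b) with hG
  set w : (V → Bool) → ℝ := fun σ => Real.exp (gE J 0 σ) with hw
  have hGx : ∀ σ τ, G (xn σ τ) = G σ * G τ := by
    intro σ τ
    simp only [hG, xn, sg_xnor]
    ring
  have hwx : ∀ σ τ, w σ * w (xn σ τ) =
      Real.exp (gE (fun x y => J x y * (1 + sg (τ x) * sg (τ y))) 0 σ) := by
    intro σ τ
    simp only [hw]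
    rw [← Real.exp_add, gE_zero, gE_zero, gE_zero, ← Finset.sum_add_distrib]
    congr 1
    refine Finset.sum_congr rfl fun p _ => ?_
    simp only [xn, sg_xnor]
    ring
  have key : (∑ σ, F σ * G σ * w σ) * (∑ σ, w σ) - (∑ σ, F σ * w σ) * (∑ σ, G σ * w σ) =
      ∑ τ, (1 - G τ) * ∑ σ, F σ * G σ *
        Real.exp (gE (fun x y => J x y * (1 + sg (τ x) * sg (τ y))) 0 σ) := by
    rw [Finset.sum_mul_sum, Finset.sum_mul_sum, ← Finset.sum_sub_distrib]
    have e1 : ∀ σ : V → Bool, ∑ j, F σ * G σ * w σ * w j - ∑ j, F σ * w σ * (G j * w j) =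
        ∑ τ, (1 - G τ) * (F σ * G σ * (w σ * w (xn σ τ))) := by
      intro σ
      rw [← Finset.sum_sub_distrib, ← sum_xn σ]
      refine Finset.sum_congr rfl fun τ _ => ?_
      rw [hGx]
      ring
    rw [Finset.sum_congr rfl fun σ _ => e1 σ, Finset.sum_comm]
    refine Finset.sum_congr rfl fun τ _ => ?_
    rw [Finset.mul_sum]
    refine Finset.sum_congr rfl fun σ _ => ?_
    rw [hwx]
  have hpos : 0 ≤ ∑ τ, (1 - G τ) * ∑ σ, F σ * G σ *
        Real.exp (gE (fun x y => J x y * (1 + sg (τ x) * sg (τ y))) 0 σ) := by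
    refine Finset.sum_nonneg fun τ _ => mul_nonneg ?_ ?_
    · rcases pair_sign (τ a) (τ b) with h | h <;> simp only [hG] <;> rw [h] <;> norm_num
    · have hgood : Good (fun σ : V → Bool => (sg (σ u) * sg (σ v)) * (sg (σ a) * sg (σ b)) *
          Real.exp (gE (fun x y => J x y * (1 + sg (τ x) * sg (τ y))) 0 σ)) := by
        refine (((Good.spin u).mul (Good.spin v)).mul ((Good.spin a).mul (Good.spin b))).mul ?_
        refine Good.exp_gE _ fun x y => mul_nonneg (hJ x y) ?_
        rcases pair_sign (τ x) (τ y) with h | h <;> rw [h] <;> norm_num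
      exact hgood.sum_nonneg
  have : (∑ σ, F σ * w σ) * (∑ σ, G σ * w σ) ≤ (∑ σ, F σ * G σ * w σ) * (∑ σ, w σ) := by
    linarith
  exact this

theorem Z_pos (J : V → V → ℝ) (h : V → ℝ) : 0 < ∑ σ : V → Bool, Real.exp (gE J h σ) :=
  Finset.sum_pos (fun _ _ => Real.exp_pos _) ⟨fun _ => true, Finset.mem_univ _⟩

/-- increasing one coupling -/
theorem gav_step (J J' : V → V → ℝ) (hJ : ∀ a b, 0 ≤ J a b) (u v a b : V) (c : ℝ) (hc : 0 ≤ c)
    (h : ∀ σ, gE J' 0 σ = gE J 0 σ + c * (sg (σ a) * sg (σ b))) :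
    gav J 0 (fun σ => sg (σ u) * sg (σ v)) ≤ gav J' 0 (fun σ => sg (σ u) * sg (σ v)) := by
  unfold gav
  rw [div_le_div_iff₀ (Z_pos J 0) (Z_pos J' 0)]
  have hg := gks2 J hJ u v a b
  have e1 : ∑ σ : V → Bool, Real.exp (gE J' 0 σ) = Real.cosh c * ∑ σ, Real.exp (gE J 0 σ) +
      Real.sinh c * ∑ σ, sg (σ a) * sg (σ b) * Real.exp (gE J 0 σ) := by
    rw [Finset.mul_sum, Finset.mul_sum, ← Finset.sum_add_distrib]
    refine Finset.sum_congr rfl fun σ _ => ?_
    rw [h, Real.exp_add, exp_mul_sign c _ (pair_sign _ _)]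
    ring
  have e2 : ∑ σ : V → Bool, sg (σ u) * sg (σ v) * Real.exp (gE J' 0 σ) =
      Real.cosh c * ∑ σ, sg (σ u) * sg (σ v) * Real.exp (gE J 0 σ) +
      Real.sinh c * ∑ σ, (sg (σ u) * sg (σ v)) * (sg (σ a) * sg (σ b)) *
        Real.exp (gE J 0 σ) := by
    rw [Finset.mul_sum, Finset.mul_sum, ← Finset.sum_add_distrib]
    refine Finset.sum_congr rfl fun σ _ => ?_
    rw [h, Real.exp_add, exp_mul_sign c _ (pair_sign _ _)]
    ring
  rw [e1, e2]
  have hs : 0 ≤ Real.sinh c := Real.sinh_nonneg_iff.2 hc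
  have := mul_le_mul_of_nonneg_left hg hs
  nlinarith

theorem pf_MONJ : S_MONJ := by
  intro V _ _ J J' u v hJ hJJ
  -- interpolate
  set K : Finset (V × V) → V → V → ℝ := fun S x y => if (x, y) ∈ S then J' x y else J x y with hK
  have hK0 : ∀ S x y, 0 ≤ K S x y := by
    intro S x y
    simp only [hK]
    split_ifs
    · exact (hJ x y).trans (hJJ x y)
    · exact hJ x y
  have main : ∀ S : Finset (V × V), gav J 0 (fun σ => sg (σ u) * sg (σ v)) ≤
      gav (K S) 0 (fun σ => sg (σ u) * sg (σ v)) := by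
    intro S
    induction S using Finset.induction_on with
    | empty =>
      have : K ∅ = J := by
        funext x y
        simp [hK]
      rw [this]
    | insert p S hp ih =>
      refine ih.trans (gav_step (K S) (K (insert p S)) (hK0 S) u v p.1 p.2
        (J' p.1 p.2 - J p.1 p.2) (by linarith [hJJ p.1 p.2]) fun σ => ?_)
      rw [gE_zero, gE_zero, ← sub_eq_iff_eq_add', ← Finset.sum_sub_distrib,
        Finset.sum_eq_single p]
      · have e1 : K (insert p S) p.1 p.2 = J' p.1 p.2 := by simp [hK]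
        have e2 : K S p.1 p.2 = J p.1 p.2 := by simp [hK, hp]
        rw [e1, e2]
        ring
      · intro q _ hq
        have e1 : K (insert p S) q.1 q.2 = K S q.1 q.2 := by
          simp [hK, hq]
        rw [e1]
        ring
      · intro h
        exact absurd (Finset.mem_univ p) h
  have hfin : K Finset.univ = J' := by
    funext x y
    simp [hK]
  have := main Finset.univ
  rwa [hfin] at this

/-- FKG for expectations -/
theorem pf_FKGH : S_FKGH := by
  intro V _ _ J h h' f hJ hh hf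
  -- make `f` nonnegative
  obtain ⟨M, hM⟩ : ∃ M : ℝ, ∀ σ, 0 ≤ f σ + M := by
    refine ⟨∑ σ, |f σ|, fun σ => ?_⟩
    have h1 : |f σ| ≤ ∑ σ, |f σ| :=
      Finset.single_le_sum (f := fun σ => |f σ|) (fun _ _ => abs_nonneg _) (Finset.mem_univ σ)
    have h2 := neg_abs_le (f σ)
    linarith
  set μ : (V → Bool) → ℝ := fun σ => Real.exp (gE J h σ) with hμ
  set g : (V → Bool) → ℝ := fun σ => Real.exp (∑ u, (h' u - h u) * sg (σ u)) with hg
  have hsgm : ∀ a b : Bool, a ≤ b → sg a ≤ sg b := by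
    intro a b hab
    cases a <;> cases b
    · exact le_rfl
    · norm_num [sg]
    · exact absurd hab (by decide)
    · exact le_rfl
  have hgm : Monotone g := by
    intro σ τ hστ
    refine Real.exp_le_exp.2 (Finset.sum_le_sum fun u _ => ?_)
    exact mul_le_mul_of_nonneg_left (hsgm _ _ (hστ u)) (by linarith [hh u])
  have hfm : Monotone (fun σ => f σ + M) := fun σ τ hστ => add_le_add_left (hf hστ) M
  have hlog : ∀ s t : V → Bool, μ s * μ t ≤ μ (s ⊓ t) * μ (s ⊔ t) := by
    intro s t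
    simp only [hμ]
    rw [← Real.exp_add, ← Real.exp_add]
    refine Real.exp_le_exp.2 ?_
    unfold gE
    have h1 : (∑ u, ∑ v, J u v * (sg (s u) * sg (s v))) +
        (∑ u, ∑ v, J u v * (sg (t u) * sg (t v))) ≤
        (∑ u, ∑ v, J u v * (sg ((s ⊓ t) u) * sg ((s ⊓ t) v))) +
        (∑ u, ∑ v, J u v * (sg ((s ⊔ t) u) * sg ((s ⊔ t) v))) := by
      rw [← Finset.sum_add_distrib, ← Finset.sum_add_distrib]
      refine Finset.sum_le_sum fun u _ => ?_
      rw [← Finset.sum_add_distrib, ← Finset.sum_add_distrib]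
      refine Finset.sum_le_sum fun v _ => ?_
      have h2 : sg (s u) * sg (s v) + sg (t u) * sg (t v) ≤
          sg ((s ⊓ t) u) * sg ((s ⊓ t) v) + sg ((s ⊔ t) u) * sg ((s ⊔ t) v) := by
        simp only [Pi.inf_apply, Pi.sup_apply]
        cases s u <;> cases s v <;> cases t u <;> cases t v <;> simp [sg] <;> norm_num
      have h3 := mul_le_mul_of_nonneg_left h2 (hJ u v)
      linarith
    have h4 : (∑ u, h u * sg (s u)) + (∑ u, h u * sg (t u)) =
        (∑ u, h u * sg ((s ⊓ t) u)) + (∑ u, h u * sg ((s ⊔ t) u)) := by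
      rw [← Finset.sum_add_distrib, ← Finset.sum_add_distrib]
      refine Finset.sum_congr rfl fun u _ => ?_
      simp only [Pi.inf_apply, Pi.sup_apply]
      cases s u <;> cases t u <;> simp [sg]
    linarith
  have key := fkg (fun σ => f σ + M) g μ (fun σ => (Real.exp_pos _).le) (fun σ => hM σ)
    (fun σ => (Real.exp_pos _).le) hfm hgm hlog
  have hμg : ∀ σ, μ σ * g σ = Real.exp (gE J h' σ) := by
    intro σ
    simp only [hμ, hg]
    rw [← Real.exp_add]
    congr 1
    unfold gE
    have : ∑ u, h' u * sg (σ u) = ∑ u, h u * sg (σ u) + ∑ u, (h' u - h u) * sg (σ u) := by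
      rw [← Finset.sum_add_distrib]
      refine Finset.sum_congr rfl fun u _ => ?_
      ring
    rw [this]
    ring
  unfold gav
  rw [div_le_div_iff₀ (Z_pos J h) (Z_pos J h')]
  have e1 : ∑ σ, μ σ * (f σ + M) = (∑ σ, f σ * Real.exp (gE J h σ)) +
      M * ∑ σ, Real.exp (gE J h σ) := by
    rw [Finset.mul_sum, ← Finset.sum_add_distrib]
    refine Finset.sum_congr rfl fun σ _ => ?_
    simp only [hμ]
    ring
  have e2 : ∑ σ, μ σ * g σ = ∑ σ, Real.exp (gE J h' σ) :=
    Finset.sum_congr rfl fun σ _ => hμg σ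
  have e3 : ∑ σ, μ σ * ((f σ + M) * g σ) = (∑ σ, f σ * Real.exp (gE J h' σ)) +
      M * ∑ σ, Real.exp (gE J h' σ) := by
    rw [Finset.mul_sum, ← Finset.sum_add_distrib]
    refine Finset.sum_congr rfl fun σ _ => ?_
    rw [← hμg]
    ring
  have e4 : ∑ σ, μ σ = ∑ σ, Real.exp (gE J h σ) := rfl
  rw [e1, e2, e3, e4] at key
  nlinarith

end Pool.Agent.Helper88.Isg
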