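import Pool.Agent.Helper88.Isg.Meas

/-!
MP_600500_pr, packet SAMP: law of the solutions of the finite volume recursion.
-/

set_option autoImplicit false

open MeasureTheory Finset

noncomputable section

namespace Pool.Agent.Helper88.Isg

open Pool.Agent.Helper70.Isg

variable {d : ℕ}

/-! ### locality in the labels -/

theorem exf_congr (β : ℝ) (Λ : Finset (Site d)) (P P' : Site d → Bool) (v : Site d) (a : Cfg d)
    (hP : ∀ u ∈ Λ, P u = P' u) : exf β Λ P v a = exf β Λ P' v a := by
  unfold exf
  have h1 : Λ.filter (fun u => P u = false) = Λ.filter (fun u => P' u = false) :=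
    Finset.filter_congr fun u hu => by rw [hP u hu]
  rw [h1]

theorem lfin_congr (β : ℝ) (K : ℕ) (Λ : Finset (Site d)) (l l' : Site d → ℕ) (v : Site d)
    (a : Cfg d) (i : ℕ) (hv : v ∈ Λ) (hl : ∀ u ∈ Λ, l u = l' u) :
    lfin β K Λ l v a i = lfin β K Λ l' v a i := by
  unfold lfin
  have h1 : ∀ u ∈ Λ, prb l u v = prb l' u v := fun u hu => prb_congr (hl u hu) (hl v hv)
  split_ifs with hb
  · exact low_congr β v _ _ _ false a a (fun u hu => h1 u (hb hu)) fun _ _ => rfl
  · exact exf_congr β Λ _ _ v a h1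

theorem fbit_congr (β : ℝ) (K : ℕ) (Λ : Finset (Site d)) (l l' : Site d → ℕ) (v : Site d)
    (k : ℕ) (a : Cfg d) (hv : v ∈ Λ) (hl : ∀ u ∈ Λ, l u = l' u) :
    fbit β K Λ l v k a = fbit β K Λ l' v k a := by
  unfold fbit
  exact gbit_congr k fun i _ => lfin_congr β K Λ l l' v a i hv hl

theorem exf_mem (hB : S_BASIC) (β : ℝ) (Λ : Finset (Site d)) (P : Site d → Bool) (v : Site d)
    (a : Cfg d) : 0 ≤ exf β Λ P v a ∧ exf β Λ P v a ≤ 1 := by
  obtain ⟨_, _, _, _, _, _, _, _, hconst, _, _, hmono, _⟩ := hB d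
  unfold exf
  constructor
  · rw [← hconst β (Λ.filter fun u => P u = false) (fun u => if u ∈ Λ then a u else true) 0]
    refine hmono _ _ _ _ _ fun σ => ?_
    unfold ind
    split_ifs <;> norm_num
  · rw [← hconst β (Λ.filter fun u => P u = false) (fun u => if u ∈ Λ then a u else true) 1]
    refine hmono _ _ _ _ _ fun σ => ?_
    unfold ind
    split_ifs <;> norm_num

theorem lam_nonneg (k : ℕ) : 0 ≤ lam k := by
  unfold lam
  positivity

/-- `geo` of a set of digits -/
theorem geo_set (b : ℕ → Bool) (p : ℝ) (h : HasSum (fun k => if b k then lam k else 0) p) :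
    geo {k | b k = true} = ENNReal.ofReal p := by
  classical
  unfold geo
  rw [Measure.sum_apply _ ((Set.to_countable _).measurableSet)]
  have h1 : ∀ k : ℕ, (ENNReal.ofReal (lam k) • Measure.dirac k) {k | b k = true} =
      ENNReal.ofReal (if b k then lam k else 0) := by
    intro k
    rw [Measure.smul_apply, Measure.dirac_apply' _ ((Set.to_countable _).measurableSet)]
    by_cases hk : b k = true
    · rw [Set.indicator_of_mem (by exact hk), if_pos hk]
      simp
    · rw [Set.indicator_of_notMem (by exact hk), if_neg hk]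
      simp
  rw [tsum_congr h1, ← ENNReal.ofReal_tsum_of_nonneg _ h.summable, h.tsum_eq]
  intro k
  split_ifs
  · exact lam_nonneg k
  · exact le_rfl

theorem pf_SAMP (hB : S_BASIC) (hP2 : S_P2) (hG : S_GREEDY) (hCh : S_CHAIN) : S_SAMP := by
  intro d β K L Λ a hL ha hlf
  classical
  obtain ⟨hu, hgeo, _, _, hP, hbox⟩ := hP2 d L hL
  -- label patterns
  let lt : (Λ → Fin L) → Site d → ℕ := fun t v => if h : v ∈ Λ then ((t ⟨v, h⟩ : Fin L) : ℕ) else 0
  let Bt : (Λ → Fin L) → Site d → Set (Fin L × ℕ) := fun t v =>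
    if h : v ∈ Λ then {t ⟨v, h⟩} ×ˢ {k | fbit β K Λ (lt t) v k a = a v} else Set.univ
  let A : (Λ → Fin L) → Set (Inp d L) := fun t => {y | ∀ v ∈ Λ, y v ∈ Bt t v}
  have hAm : ∀ t, MeasurableSet (A t) := by
    intro t
    have h1 : A t = ⋂ v ∈ Λ, (fun y : Inp d L => y v) ⁻¹' (Bt t v) := by
      ext y
      simp only [A, Set.mem_iInter, Set.mem_preimage]
      rfl
    rw [h1]
    refine Finset.measurableSet_biInter Λ fun v _ => ?_
    exact (measurable_pi_apply v) ((Set.to_countable _).measurableSet)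
  have hmemA : ∀ t y, y ∈ A t ↔ ∀ v (h : v ∈ Λ), (y v).1 = t ⟨v, h⟩ ∧
      fbit β K Λ (lt t) v (y v).2 a = a v := by
    intro t y
    constructor
    · intro hy v h
      have h1 : y v ∈ Bt t v := hy v h
      simp only [Bt, dif_pos h] at h1
      exact ⟨h1.1, h1.2⟩
    · intro hy v h
      show y v ∈ Bt t v
      simp only [Bt, dif_pos h]
      exact ⟨(hy v h).1, (hy v h).2⟩
  have hunion : {y : Inp d L | ∀ v ∈ Λ, fbit β K Λ (lab y) v (y v).2 a = a v} = ⋃ t, A t := by
    ext y
    rw [Set.mem_iUnion]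
    constructor
    · intro hy
      refine ⟨fun v => (y v).1, (hmemA (fun v => (y v).1) y).2 fun v h => ⟨rfl, ?_⟩⟩
      rw [← hy v h]
      refine fbit_congr β K Λ _ _ v _ a h fun u hu => ?_
      simp only [lt, dif_pos hu]
      rfl
    · rintro ⟨t, hy⟩ v h
      have h1 := (hmemA t y).1 hy
      rw [← (h1 v h).2]
      refine fbit_congr β K Λ _ _ v _ a h fun u hu => ?_
      simp only [lt, dif_pos hu]
      rw [← (h1 u hu).1]
      rfl
  have hdisj : Pairwise (Function.onFun Disjoint A) := by
    intro t t' htt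
    rw [Function.onFun, Set.disjoint_left]
    intro y hy hy'
    apply htt
    funext v
    rw [← ((hmemA t y).1 hy v v.2).1, ← ((hmemA t' y).1 hy' v v.2).1]
  rw [hunion, measure_iUnion hdisj hAm, tsum_fintype]
  -- the probability of one pattern
  have hone : ∀ t, P2 d L (A t) = ((L : ENNReal)⁻¹) ^ Λ.card *
      ENNReal.ofReal (wt β Λ a / pf β Λ allT) := by
    intro t
    show P2 d L {y | ∀ v ∈ Λ, y v ∈ Bt t v} = _
    rw [hbox Λ (Bt t)]
    have h1 : ∀ v ∈ Λ, ((unifL L).prod geo) (Bt t v) = (L : ENNReal)⁻¹ *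
        ENNReal.ofReal (if a v then exf β Λ (fun w => prb (lt t) w v) v a
          else 1 - exf β Λ (fun w => prb (lt t) w v) v a) := by
      intro v hv
      simp only [Bt, dif_pos hv]
      rw [Measure.prod_prod]
      congr 1
      · unfold unifL
        rw [Measure.smul_apply, Measure.count_singleton]
        simp
      · have hex := exf_mem hB β Λ (fun w => prb (lt t) w v) v a
        have hsum := hG (lfin β K Λ (lt t) v a) (exf β Λ (fun w => prb (lt t) w v) v a)
          (fun k => hlf (lt t) v hv k) hex.1 hex.2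
        have hT := geo_set (gbit (lfin β K Λ (lt t) v a)) _ hsum
        cases hav : a v
        · simp only [Bool.false_eq_true, if_false]
          have h2 : {k | fbit β K Λ (lt t) v k a = false} =
              {k | gbit (lfin β K Λ (lt t) v a) k = true}ᶜ := by
            ext k
            simp only [Set.mem_setOf_eq, Set.mem_compl_iff, fbit, Bool.not_eq_true]
          rw [h2, prob_compl_eq_one_sub ((Set.to_countable _).measurableSet), hT,
            ENNReal.ofReal_sub _ hex.1, ENNReal.ofReal_one]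
        · simp only [if_true]
          exact hT
    rw [Finset.prod_congr rfl h1, Finset.prod_mul_distrib, Finset.prod_const]
    congr 1
    rw [← ENNReal.ofReal_prod_of_nonneg]
    · rw [hCh d β Λ (lt t) a ha]
    · intro v _
      have hex := exf_mem hB β Λ (fun w => prb (lt t) w v) v a
      split_ifs
      · exact hex.1
      · linarith [hex.2]
  rw [Finset.sum_congr rfl fun t _ => hone t, Finset.sum_const, nsmul_eq_mul, Finset.card_univ,
    Fintype.card_fun, Fintype.card_fin, Fintype.card_coe, ← mul_assoc]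
  have hL0 : (L : ENNReal) ≠ 0 := by exact_mod_cast hL.ne'
  have hLt : (L : ENNReal) ≠ ⊤ := ENNReal.natCast_ne_top L
  have h2 : ((L ^ Λ.card : ℕ) : ENNReal) * ((L : ENNReal)⁻¹) ^ Λ.card = 1 := by
    push_cast
    rw [← mul_pow, ENNReal.mul_inv_cancel hL0 hLt, one_pow]
  rw [h2, one_mul]

end Pool.Agent.Helper88.Isg
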