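import Pool.Agent.Helper70.Isg.Goals2

/-!
MP_600500_pr, packet SAND: bounds between the ball and the full volume.
-/

set_option autoImplicit false

open Finset

noncomputable section

namespace Pool.Agent.Helper88.Isg

open Pool.Agent.Helper70.Isg

variable {d : ℕ}

/-- monotonicity of `ev` for inequalities valid on configurations equal to `η` outside `Λ` -/
theorem ev_mono_on (hB : S_BASIC) (β : ℝ) (Λ : Finset (Site d)) (η : Cfg d) (f g : Cfg d → ℝ)
    (h : ∀ σ : Cfg d, (∀ v ∉ Λ, σ v = η v) → f σ ≤ g σ) : ev β Λ η f ≤ ev β Λ η g := by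
  classical
  obtain ⟨_, _, _, _, _, _, _, _, _, _, _, hmono, hcongr⟩ := hB d
  rw [hcongr β Λ η f (fun σ => if ∀ v ∉ Λ, σ v = η v then f σ else g σ) (fun σ hσ => by
    rw [if_pos hσ])]
  refine hmono β Λ η _ _ fun σ => ?_
  split_ifs with hσ
  · exact h σ hσ
  · exact le_rfl

theorem ev_sg (hB : S_BASIC) (β : ℝ) (Λ : Finset (Site d)) (η : Cfg d) (v : Site d) :
    ev β Λ η (fun σ => sg (σ v)) = 2 * ev β Λ η (ind v) - 1 := by
  obtain ⟨_, _, _, _, _, _, _, _, hconst, hadd, hmul, _, _⟩ := hB d
  have h1 : (fun σ : Cfg d => sg (σ v)) = fun σ => (2 * ind v σ) + (-1) := by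
    funext σ
    unfold ind sg
    split_ifs <;> norm_num
  rw [h1, hadd β Λ η (fun σ => 2 * ind v σ) (fun _ => -1), hmul, hconst]
  ring

theorem ball_image (hB : S_BASIC) (v : Site d) (r : ℕ) :
    ball v r = (ball (0 : Site d) r).image (· + v) := by
  obtain ⟨_, _, _, hball, _⟩ := hB d
  ext u
  rw [Finset.mem_image, hball]
  constructor
  · intro h
    refine ⟨u - v, ?_, by simp⟩
    rw [hball, sub_zero]
    exact h
  · rintro ⟨w, hw, rfl⟩
    rw [hball, sub_zero] at hw
    simpa using hw

theorem mag_ball (hB : S_BASIC) (hT : S_TRAN) (β : ℝ) (v : Site d) (r : ℕ) :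
    mag β (ball v r) v = mag β (ball (0 : Site d) r) 0 := by
  unfold mag
  rw [ball_image hB, hT]
  have h1 : shift v (allT : Cfg d) = allT := rfl
  have h2 : (fun σ : Cfg d => sg (shift (-v) σ v)) = fun σ => sg (σ 0) := by
    funext σ
    unfold shift
    rw [add_neg_cancel]
  rw [h1, h2]

theorem pf_SAND (hB : S_BASIC) (hC : S_CONS) (hM : S_MONB) (hT : S_TRAN) (hS : S_SSM) :
    S_SAND := by
  intro d β Λ P v r a hβ hPv hball
  obtain ⟨_, _, _, hmem, _, _, hl10, _, hconst, hadd, hmul, hmono, hcongr⟩ := hB d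
  set Lf : Finset (Site d) := Λ.filter (fun u => P u = false) with hLf
  set Del : Finset (Site d) := (ball v r).filter (fun u => P u = false) with hDel
  set ξ : Cfg d := fun u => if u ∈ Λ then a u else true with hξ
  have hsub : Del ⊆ Lf := by
    intro u hu
    rw [hDel, Finset.mem_filter] at hu
    rw [hLf, Finset.mem_filter]
    exact ⟨hball hu.1, hu.2⟩
  have hexf : exf β Λ P v a = ev β Lf ξ (fun σ => ev β Del σ (ind v)) :=
    hC d β Del Lf ξ (ind v) hsub
  have hind : Monotone (ind v) := by
    intro σ τ hστ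
    have h1 : σ v ≤ τ v := hστ v
    unfold ind
    cases h2 : σ v
    · simp only [Bool.false_eq_true, if_false]
      split_ifs <;> norm_num
    · rw [h2] at h1
      have h3 : τ v = true := by
        cases h4 : τ v
        · rw [h4] at h1
          exact absurd h1 (by decide)
        · rfl
      rw [h3]
  -- values in the ball
  have hin : ∀ σ : Cfg d, (∀ u ∉ Lf, σ u = ξ u) → ∀ u ∉ Del, u ∈ ball v r → σ u = a u := by
    intro σ hσ u hu hub
    have hP : ¬ P u = false := by
      intro hP
      exact hu (by rw [hDel, Finset.mem_filter]; exact ⟨hub, hP⟩)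
    have huL : u ∉ Lf := by
      rw [hLf, Finset.mem_filter]
      exact fun h => hP h.2
    rw [hσ u huL, hξ]
    simp only
    rw [if_pos (hball hub)]
  have hlow : low β v r P false a ≤ exf β Λ P v a := by
    rw [hexf, ← hconst β Lf ξ (low β v r P false a)]
    refine ev_mono_on hB β Lf ξ _ _ fun σ hσ => ?_
    refine hM d β Del _ σ (ind v) hβ ?_ hind
    intro u hu
    by_cases hub : u ∈ ball v r
    · rw [if_pos hub, hin σ hσ u hu hub]
    · rw [if_neg hub]
      exact Bool.false_le _
  have hup : exf β Λ P v a ≤ low β v r P true a := by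
    rw [hexf, ← hconst β Lf ξ (low β v r P true a)]
    refine ev_mono_on hB β Lf ξ _ _ fun σ hσ => ?_
    refine hM d β Del σ _ (ind v) hβ ?_ hind
    intro u hu
    by_cases hub : u ∈ ball v r
    · rw [if_pos hub, hin σ hσ u hu hub]
    · rw [if_neg hub]
      exact Bool.le_true _
  refine ⟨hlow, hup.trans ?_⟩
  -- strong spatial mixing
  have hvb : v ∈ ball v r := by
    rw [hmem, sub_self, (hl10 0).2 rfl]
    exact Nat.zero_le r
  have hQ : ball v r \ (ball v r).filter (fun u => P u = true) = Del := by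
    ext u
    rw [Finset.mem_sdiff, Finset.mem_filter, hDel, Finset.mem_filter]
    constructor
    · rintro ⟨h1, h2⟩
      refine ⟨h1, ?_⟩
      cases h3 : P u
      · rfl
      · exact absurd ⟨h1, h3⟩ h2
    · rintro ⟨h1, h2⟩
      refine ⟨h1, fun h3 => ?_⟩
      rw [h3.2] at h2
      exact absurd h2 (by decide)
  have hvQ : v ∉ (ball v r).filter (fun u => P u = true) := by
    rw [Finset.mem_filter, hPv]
    simp
  have h1 := hS d β (ball v r) ((ball v r).filter (fun u => P u = true)) a v hβ hvb hvQ
  rw [hQ, ev_sg hB, ev_sg hB, mag_ball hB hT] at h1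
  have e1 : low β v r P true a = ev β Del (fun u => if u ∈ ball v r then a u else true) (ind v) :=
    rfl
  have e2 : low β v r P false a = ev β Del (fun u => if u ∈ ball v r then a u else false) (ind v) :=
    rfl
  rw [e1, e2]
  linarith

end Pool.Agent.Helper88.Isg
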